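import Pool.Agent.Lib.MP_87d664_al.LP.Main

/-!
# MP_87d664_al, Q1: all parameter arrays with the same `θ*` and the same products `φ_i ϕ_i`

All fields, all diameters. `th = θ`, `ths = θ*`, `vp = φ` (the first split sequence), `ph = ϕ` (the second).
-/

set_option autoImplicit false

namespace Pool.Agent.Results.MP_87d664_al.AllCompanions

open Pool.Agent.Lib.MP87d664.LP

variable {K : Type} [Field K]

/-- The products with `i = 1, 2, 3` are enough. -/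
def Three (d : ℕ) (ths vp ph : ℕ → K) : Prop :=
  ∀ th' vp' ph' : ℕ → K, Sol d ths vp ph th' vp' ph' ↔ PArray d th' ths vp' ph' ∧
    vp' 1 * ph' 1 = vp 1 * ph 1 ∧ vp' 2 * ph' 2 = vp 2 * ph 2 ∧ vp' 3 * ph' 3 = vp 3 * ph 3

/-- The parameters `(X', Y', Z')` of the solutions that are not among the four known ones. -/
def Ext (β γ ρ X Y Z X' Y' Z' : K) : Prop :=
  Del β γ ρ * (X * Y + X' * Y') = LL β γ ρ X Y Z ∧
  (X' + Y') ^ 2 = X ^ 2 + β * (X * Y) + Y ^ 2 - (β - 2) * (X' * Y') ∧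
  Z' * (X' + Y') = Z * (X + Y) + γ * (X * Y) - γ * (X' * Y') ∧
  Z' ^ 2 = Z ^ 2 + ρ * (X * Y) - ρ * (X' * Y')

/-- The triples with `EqJ`. -/
def Trip (β γ ρ X Y Z : K) : Set (K × K × K) := {t | EqJ β γ ρ X Y Z t.1 t.2.1 t.2.2}

/-- The facts on `EqJ`: when it holds, when only the four known triples are left, how many triples there are. -/
def Facts (β γ ρ X Y Z : K) : Prop :=
  (∀ X' Y' Z' : K, EqJ β γ ρ X Y Z X' Y' Z' ↔
    Kn X Y Z X' Y' Z' ∨ Ext β γ ρ X Y Z X' Y' Z') ∧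
  (Del β γ ρ = 0 → LL β γ ρ X Y Z ≠ 0 → ∀ X' Y' Z' : K,
    EqJ β γ ρ X Y Z X' Y' Z' ↔ Kn X Y Z X' Y' Z') ∧
  (¬ (Del β γ ρ = 0 ∧ LL β γ ρ X Y Z = 0) →
    (Trip β γ ρ X Y Z).Finite ∧ (Trip β γ ρ X Y Z).ncard ≤ 8)

/-- The equations for `β = -2`, characteristic two (then `d = 3`). -/
def Char2 (th ths ph th' vp' ph' : ℕ → K) : Prop :=
  Inj 3 th' ∧ th' 3 = th' 0 + th' 1 + th' 2 ∧
  vp' 1 = ph' 1 + (ths 1 - ths 0) * (th' 1 - th' 2) ∧
  vp' 2 = (ths 2 - ths 0) * (th' 0 - th' 2) ∧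
  ph' 2 = (ths 2 - ths 0) * (th' 0 - th' 2) ∧
  vp' 3 = ph' 1 + (ths 3 - ths 0) * (th' 0 - th' 1) ∧
  ph' 3 = vp' 1 + (ths 3 - ths 0) * (th' 0 - th' 1) ∧
  th' 0 - th' 2 = th 0 - th 2 ∧
  (th' 0 - th' 1 = th 0 - th 1 ∨ (ths 2 - ths 0) * (th' 0 - th' 1) =
    (ths 2 - ths 0) * (th 0 - th 1) + (ths 1 - ths 0) * (th 0 - th 2)) ∧
  ph' 1 * (ph' 1 + (ths 1 - ths 0) * (th' 1 - th' 2)) =
    ph 1 * (ph 1 + (ths 1 - ths 0) * (th 1 - th 2))

/-- The equations for `d = 1`. -/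
def One (ths vp ph th' vp' ph' : ℕ → K) : Prop :=
  vp' 1 * ph' 1 = vp 1 * ph 1 ∧ vp' 1 ≠ ph' 1 ∧
  th' 0 - th' 1 = (vp' 1 - ph' 1) / (ths 1 - ths 0)

/-- The equations for `d = 2`. -/
def Two (ths vp ph th' vp' ph' : ℕ → K) : Prop :=
  Inj 2 th' ∧ vp' 1 * ph' 1 = vp 1 * ph 1 ∧ vp' 2 * ph' 2 = vp 2 * ph 2 ∧
  (vp' 2 - ph' 2) / (ths 2 - ths 1) = (vp' 1 - ph' 1) / (ths 1 - ths 0) ∧
  th' 0 - th' 2 = (vp' 1 - ph' 1) / (ths 1 - ths 0) ∧
  th' 1 - th' 2 = (vp' 2 - ph' 1) / (ths 2 - ths 0)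

theorem result :
    -- (0) for `d ≥ 3` the first three products are enough
    (∀ (K : Type) [Field K] (d : ℕ) (th ths vp ph : ℕ → K), 3 ≤ d → PArray d th ths vp ph →
      Three d ths vp ph) ∧
    -- (1) `d ≥ 3`, `β ≠ -2` or `d` even
    (∀ (K : Type) [Field K] (d : ℕ) (th ths vp ph : ℕ → K), 3 ≤ d → PArray d th ths vp ph →
      (bet ths ≠ -2 ∨ Even d) → ∃ X Y Z : K,
        (∀ a b c : K, Par d ths th vp ph a b c ↔ a = X ∧ b = Y ∧ c = Z) ∧
        (∀ th' vp' ph' : ℕ → K, Sol d ths vp ph th' vp' ph' ↔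
          Inj d th' ∧ ∃ X' Y' Z' : K, Par d ths th' vp' ph' X' Y' Z' ∧
            EqJ (bet ths) (gam ths) (rho ths) X Y Z X' Y' Z') ∧
        Facts (bet ths) (gam ths) (rho ths) X Y Z) ∧
    -- (2) `β = -2`, `d` odd, characteristic not two
    (∀ (K : Type) [Field K] (d : ℕ) (th ths vp ph : ℕ → K), (2 : K) ≠ 0 → 3 ≤ d → Odd d →
      PArray d th ths vp ph → bet ths = -2 → ∃ a e u : K,
        (∀ a' e' u' : K, Par2 d ths th vp ph a' e' u' ↔ a' = a ∧ e' = e ∧ u' = u) ∧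
        (∀ th' vp' ph' : ℕ → K, Sol d ths vp ph th' vp' ph' ↔
          Inj d th' ∧ ∃ a' e' u' : K, Par2 d ths th' vp' ph' a' e' u' ∧ Lso a e u a' e' u')) ∧
    -- (3) `β = -2`, characteristic two
    (∀ (K : Type) [Field K] (d : ℕ) (th ths vp ph : ℕ → K), (2 : K) = 0 → 3 ≤ d →
      PArray d th ths vp ph → bet ths = -2 → d = 3 ∧
        ∀ th' vp' ph' : ℕ → K, Sol d ths vp ph th' vp' ph' ↔ Char2 th ths ph th' vp' ph') ∧
    -- (4) `d ≤ 2`
    (∀ (K : Type) [Field K] (th ths vp ph th' vp' ph' : ℕ → K),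
      (Sol 0 ths vp ph th' vp' ph') ∧
      (PArray 1 th ths vp ph → (Sol 1 ths vp ph th' vp' ph' ↔ One ths vp ph th' vp' ph')) ∧
      (PArray 2 th ths vp ph → (Sol 2 ths vp ph th' vp' ph' ↔ Two ths vp ph th' vp' ph'))) := by
  refine ⟨?_, ?_, ?_, ?_, ?_⟩
  · intro K _ d th ths vp ph hd hp th' vp' ph'
    constructor
    · rintro ⟨hp', he⟩
      exact ⟨hp', he 1 le_rfl (by omega), he 2 (by omega) (by omega), he 3 (by omega) hd⟩
    · rintro ⟨hp', e1, e2, e3⟩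
      exact ⟨hp', thr K d th ths vp ph th' vp' ph' hd hp hp' e1 e2 e3⟩
  · intro K _ d th ths vp ph hd hp h
    obtain ⟨X, Y, Z, h1, h2⟩ := caseI K d th ths vp ph hd hp h
    exact ⟨X, Y, Z, h1, h2, fun X' Y' Z' => specSL2 K _ _ _ X Y Z X' Y' Z',
      (cn8 K _ _ _ X Y Z).1, (cn8 K _ _ _ X Y Z).2⟩
  · intro K _ d th ths vp ph h2 hd ho hp hβ
    exact fno K d th ths vp ph h2 hd ho hp hβ
  · intro K _ d th ths vp ph h2 hd hp hβ
    have hd3 : d = 3 := (orp K d th ths vp ph th vp ph h2 hd hβ hp).1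
    refine ⟨hd3, ?_⟩
    intro th' vp' ph'
    obtain ⟨_, h1, h3⟩ := orp K d th ths vp ph th' vp' ph' h2 hd hβ hp
    constructor
    · rintro ⟨hp', he⟩
      obtain ⟨a1, _, a2, a3, a4, a5, a6, a7⟩ := h1.1 hp'
      obtain ⟨b1, b2, b3⟩ := (h3 hp').1 he
      exact ⟨a1, a2, a3, a4, a5, a6, a7, b1, b2, b3⟩
    · rintro ⟨a1, a2, a3, a4, a5, a6, a7, b1, b2, b3⟩
      subst hd3
      obtain ⟨_, k0, _⟩ := orp K 3 th ths vp ph th vp ph h2 hd hβ hp
      obtain ⟨_, hnz, _, c1, c2, c3, c4, c5⟩ := k0.1 hp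
      obtain ⟨_, hIs, _, _, _, _, hRs⟩ := (specREC K 3 th ths vp ph le_rfl).1 hp
      have hs : ths 0 - ths 3 = (bet ths + 1) * (ths 1 - ths 2) := hRs 0 le_rfl
      have hs' : ths 3 = ths 0 + ths 1 + ths 2 := by
        rw [hβ] at hs
        linear_combination (-1 : K) * hs - ths 2 * h2
      have e1 : vp' 1 * ph' 1 = vp 1 * ph 1 := by
        rw [a3, c1]
        linear_combination b3
      have e2 : vp' 2 * ph' 2 = vp 2 * ph 2 := by
        rw [a4, a5, c2, c3, b1]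
      have e3 : vp' 3 * ph' 3 = vp 3 * ph 3 := by
        have f1 : vp' 3 * ph' 3 = vp' 1 * ph' 1 + (ths 3 - ths 0) * ((th' 0 - th' 1) *
            ((ths 1 - ths 0) * (th' 0 - th' 2) + (ths 2 - ths 0) * (th' 0 - th' 1))) := by
          rw [a6, a7, a3, hs']
          linear_combination ((ths 1 + ths 2) * (th' 0 - th' 1) * ph' 1 +
            (ths 1 + ths 2) * ths 0 * (th' 0 - th' 1) ^ 2) * h2
        have f2 : vp 3 * ph 3 = vp 1 * ph 1 + (ths 3 - ths 0) * ((th 0 - th 1) *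
            ((ths 1 - ths 0) * (th 0 - th 2) + (ths 2 - ths 0) * (th 0 - th 1))) := by
          rw [c4, c5, c1, hs']
          linear_combination ((ths 1 + ths 2) * (th 0 - th 1) * ph 1 +
            (ths 1 + ths 2) * ths 0 * (th 0 - th 1) ^ 2) * h2
        rw [f1, f2, e1, b1]
        rcases b2 with b2 | b2
        · rw [b2]
        · have f3 : (th' 0 - th' 1) * ((ths 1 - ths 0) * (th 0 - th 2) +
              (ths 2 - ths 0) * (th' 0 - th' 1)) = (th 0 - th 1) * ((ths 1 - ths 0) * (th 0 - th 2) +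
              (ths 2 - ths 0) * (th 0 - th 1)) := by
            rw [b2]
            linear_combination (th 0 - th 1) * b2 +
              (th' 0 - th' 1) * (ths 1 - ths 0) * (th 0 - th 2) * h2
          rw [f3]
      have he : ∀ i, 1 ≤ i → i ≤ 3 → vp' i * ph' i = vp i * ph i := by
        intro i hi hi3
        have h : i = 1 ∨ i = 2 ∨ i = 3 := by omega
        rcases h with rfl | rfl | rfl
        · exact e1
        · exact e2
        · exact e3
      refine ⟨h1.2 ⟨a1, ?_, a2, a3, a4, a5, a6, a7⟩, he⟩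
      intro i hi hi3
      have h0 : vp' i * ph' i ≠ 0 := by
        rw [he i hi hi3]
        exact mul_ne_zero (hnz i hi hi3).1 (hnz i hi hi3).2
      exact ⟨left_ne_zero_of_mul h0, right_ne_zero_of_mul h0⟩
  · intro K _ th ths vp ph th' vp' ph'
    obtain ⟨s0, s1, s2⟩ := specSMA K th' ths vp' ph'
    refine ⟨⟨s0, fun i h1 h2 => by omega⟩, ?_, ?_⟩
    · intro hp
      rw [Sol, s1 hp.pa1.2, One]
      constructor
      · rintro ⟨⟨_, _, a3, a4⟩, he⟩
        exact ⟨he 1 le_rfl le_rfl, a3, a4⟩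
      · rintro ⟨e1, a3, a4⟩
        have h0 : vp' 1 * ph' 1 ≠ 0 := by
          rw [e1]
          exact mul_ne_zero (hp.pa2 1 le_rfl le_rfl).1 (hp.pa2 1 le_rfl le_rfl).2
        refine ⟨⟨left_ne_zero_of_mul h0, right_ne_zero_of_mul h0, a3, a4⟩, ?_⟩
        intro i hi hi1
        have h : i = 1 := by omega
        rw [h]
        exact e1
    · intro hp
      rw [Sol, s2 hp.pa1.2, Two]
      constructor
      · rintro ⟨⟨a0, _, _, _, _, a5, a6, a7⟩, he⟩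
        exact ⟨a0, he 1 le_rfl (by omega), he 2 (by omega) le_rfl, a7, a5, a6⟩
      · rintro ⟨a0, e1, e2, a7, a5, a6⟩
        have h0 : vp' 1 * ph' 1 ≠ 0 := by
          rw [e1]
          exact mul_ne_zero (hp.pa2 1 le_rfl (by omega)).1 (hp.pa2 1 le_rfl (by omega)).2
        have h0' : vp' 2 * ph' 2 ≠ 0 := by
          rw [e2]
          exact mul_ne_zero (hp.pa2 2 (by omega) le_rfl).1 (hp.pa2 2 (by omega) le_rfl).2
        refine ⟨⟨a0, left_ne_zero_of_mul h0, right_ne_zero_of_mul h0, left_ne_zero_of_mul h0',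
          right_ne_zero_of_mul h0', a5, a6, a7⟩, ?_⟩
        intro i hi hi2
        have h : i = 1 ∨ i = 2 := by omega
        rcases h with rfl | rfl
        · exact e1
        · exact e2

end Pool.Agent.Results.MP_87d664_al.AllCompanions
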